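import Pool.Agent.R905.Ab.CmMain

/-!
# If the category of Chow motives over a finite field is abelian, rational and numerical
equivalence agree on products of abelian varieties and curves

`C` is an abelian `ℚ`-linear rigid symmetric tensor category with `End(𝟙) = ℚ`, `R` is a symmetric
monoidal additive functor from `C` to finite dimensional super vector spaces over a field `K`, and
`F` is a Frobenius: a natural endomorphism of the identity functor, equal to the identity on `𝟙`,
such that `1` is not an eigenvalue of its realisation on the odd part of any object.

The example for the problem: `C = CHMot(𝔽_q)`, IF this category is abelian, `R = H^*` is the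
`ℓ`-adic cohomology and `F` is the geometric Frobenius (see `RankBound`). The cohomology is not
assumed to be exact or faithful, and no case of the Tate conjecture is used.

An object `T` has complex multiplication (`HasCM`) if a number field `L` acts on `T` such that the
realisation of `T` is generated, as a vector space over `K`, by the `L`-orbit of one vector (so it is
a quotient of `L ⊗ K`). `CMType` is the smallest class of objects which contains these objects and is
closed under tensor products, direct sums and direct summands.

Examples over `𝔽_q`: for a simple abelian variety `A` the division algebra `End(A) ⊗ ℚ` contains a
field `L` of degree `2 dim A` (Tate), and `H^1(A)` is free of rank one over `L ⊗ ℚ_ℓ`, so `h^1(A)` has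
complex multiplication; the Tate twists have complex multiplication by `L = ℚ`. Hence `h^1` of each
abelian variety, the motives `h(A)(r)` of abelian varieties (direct sums of direct summands of tensor
powers of `h^1(A)`), the motives of curves, and the motives of products of such varieties and of the
varieties dominated by such products are of type `CMType`.

Theorem. If `N` is of type `CMType` then no non zero morphism `𝟙 ⟶ N` is numerically trivial. So: if
`CHMot(𝔽_q)` is abelian then rational and numerical equivalence (hence also `ℓ`-adic homological
equivalence, for each `ℓ`) with rational coefficients agree on all abelian varieties over `𝔽_q`, on all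
products of curves and of abelian varieties, and on the varieties dominated by such products.
Both equalities are open for abelian varieties over finite fields in general. In other words: a cycle
on an abelian variety over `𝔽_q` which is numerically trivial but not torsion in the Chow group (or
not homologically trivial) would show that `CHMot(𝔽_q)` is not abelian.

Steps of the proof: `N` is a direct summand of an object `T` with an action of a finite reduced
`ℚ`-algebra `E`, with a generator of the realisation. Let `f : 𝟙 ⟶ T` be non zero. A primitive
idempotent `ε` of `E` with `f ε ≠ 0` cuts out a summand `T'` with
`dim H(T') ≤ [εE : ℚ] ≤ dim Hom(𝟙, T')`. By the rank bound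
`dim Hom(𝟙, T') ≤ mult(T') ≤ dim H(T')` all these numbers are equal, so the Frobenius is unipotent on
the realisation of `T'`, and then on `T'`, since homologically trivial endomorphisms are nilpotent.
Dividing `T'` by copies of `𝟙` which together with `f` span `Hom(𝟙, T')` we arrive at a quotient
of multiplicity one, which contains `𝟙` by `f`, and the quotient of this by `𝟙` has zero
realisation, hence is zero. This gives a morphism `T' ⟶ 𝟙` with non zero composite with `f`.
-/

set_option autoImplicit false

open CategoryTheory Limits MonoidalCategory

namespace Pool.Agent.Results.MP_6c4da4_ag.AbelianVarieties

open Pool.Agent.Y112.SR Pool.Agent.Y112.KD Pool.Agent.R905.Ab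

universe v u w

theorem result {C : Type u} [Category.{v} C] [Abelian C] [Linear ℚ C] [MonoidalCategory C]
    [MonoidalPreadditive C] [MonoidalLinear ℚ C] [SymmetricCategory C] [RightRigidCategory C]
    (hU : UnitQ C) {K : Type w} [Field K] (R : SuperRealisation C K) (F : Frobenius R)
    (N : C) (hN : CMType R N) (f : 𝟙_ C ⟶ N) (hf : ∀ g : N ⟶ 𝟙_ C, f ≫ g = 0) : f = 0 := by
  by_contra hne
  obtain ⟨g, hg⟩ := hN.nontrivial F hU f hne
  exact hg (hf g)

end Pool.Agent.Results.MP_6c4da4_ag.AbelianVarieties
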