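import Pool.Agent.R905.Ab.Kim

/-!
# If the category of Chow motives over a finite field is abelian, all motives over the field are
finite-dimensional in the sense of Kimura

`C` is an abelian `ℚ`-linear rigid symmetric tensor category with `End(𝟙) = ℚ`, `R` is a symmetric
monoidal additive functor from `C` to finite dimensional super vector spaces over a field `K`, and
`F` is a Frobenius: a natural endomorphism of the identity functor, equal to the identity on `𝟙`,
such that `1` is not an eigenvalue of its realisation on the odd part of any object. For each object
the projector to the even part of the realisation is the image of an endomorphism (`CPlus`).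

The example for the problem: `C = CHMot(𝔽_q)`, IF this category is abelian, `R = H^*` is the
`ℓ`-adic cohomology and `F` is the geometric Frobenius. The hypotheses on `R` and `F` are then
theorems: correspondences over `𝔽_q` commute with the Frobenius, `1` is not an eigenvalue on the odd
part because of the weights (Deligne), and the Künneth projectors are algebraic (Katz and Messing,
as stated in the problem). It is not known or assumed that the cohomology is exact or faithful on
`C`, that the Tate conjecture holds, or that numerical and homological equivalence agree.

Theorem. If `CHMot(𝔽_q)` is abelian then

* each Chow motive over `𝔽_q` is finite-dimensional in the sense of Kimura (the conjecture of Kimura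
  and O'Sullivan over `𝔽_q`);
* homologically trivial endomorphisms of Chow motives are nilpotent;
* a Chow motive with zero cohomology is zero (no phantom motives);
* the spaces of morphisms, in particular all Chow groups with rational coefficients of smooth
  projective varieties over `𝔽_q`, are finite dimensional.

So a Chow motive over a finite field which is not finite-dimensional, or a phantom motive, would show
that `CHMot(𝔽_q)` is not abelian.

Steps of the proof: (1) additivity of traces in short exact sequences, applied to the powers of the
Frobenius and to `0 ⟶ 𝟙 ⟶ N ⟶ coker ⟶ 0` gives `dim Hom(𝟙, N) ≤` multiplicity of the eigenvalue `1` on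
the realisation of `N` (see `RankBound`). (2) With `N = P ⊗ P^∨`: if the realisation of `P` is zero
then `P = 0`. (3) An endomorphism with zero realisation is nilpotent: by Fitting's lemma its ideal
would contain a non zero idempotent, whose image has zero realisation. (4) So the even projector can
be lifted to an idempotent, `M = M₊ ⊕ M₋`. (5) The exterior power `Λ^n M₊`, where `n` is larger than
the dimension of the realisation of `M₊`, has dimension `0` (a computation with traces) and purely
even realisation. So its realisation is zero, and `Λ^n M₊ = 0`. In the same way `Sym^n M₋ = 0`.
-/

set_option autoImplicit false

open CategoryTheory Limits MonoidalCategory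

namespace Pool.Agent.Results.MP_6c4da4_ag.KimuraFinite

open Pool.Agent.Y112.SR Pool.Agent.Y112.KD Pool.Agent.R905 Pool.Agent.R905.Ab

universe v u w

theorem result {C : Type u} [Category.{v} C] [Abelian C] [Linear ℚ C] [MonoidalCategory C]
    [MonoidalPreadditive C] [MonoidalLinear ℚ C] [SymmetricCategory C] [RightRigidCategory C]
    (hU : UnitQ C) {K : Type w} [Field K] (R : SuperRealisation C K) (F : Frobenius R)
    (hC : ∀ M : C, R.CPlus M) :
    (∀ M : C, IsKimuraFinite M) ∧
    (∀ (M : C) (f : End M), R.H.map (f : M ⟶ M) = 0 → IsNilpotent f) ∧
    (∀ M : C, IsZero (R.H.obj M) → IsZero M) ∧
    (∀ M N : C, Module.Finite ℚ (M ⟶ N)) :=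
  ⟨fun M => isKimuraFinite F hU (hC M), fun M f hf => homNil F hU M f hf,
    fun M hM => (IsZero.iff_id_eq_zero M).2 (id_eq_zero F hU hM), hom_finite F hU⟩

end Pool.Agent.Results.MP_6c4da4_ag.KimuraFinite
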