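import Pool.Agent.R905.Ab.Dual

/-!
# If the category of Chow motives over a finite field is abelian, rational and numerical
equivalence agree where the zeta function has a pole of order at most two

`C` is an abelian `ℚ`-linear rigid symmetric tensor category with `End(𝟙) = ℚ`, `R` is a symmetric
monoidal additive functor from `C` to finite dimensional super vector spaces over a field `K`, and
`F` is a Frobenius: a natural endomorphism of the identity functor, equal to the identity on `𝟙`,
such that `1` is not an eigenvalue of its realisation on the odd part of any object.

The example for the problem: `C = CHMot(𝔽_q)`, IF this category is abelian, `R = H^*` is the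
`ℓ`-adic cohomology and `F` is the geometric Frobenius. The hypotheses on `R` and `F` are then
theorems (see `RankBound`). For a smooth projective variety `X` over `𝔽_q` and `N = h(X)(r)` one has
`Hom(𝟙, N) = CH^r(X)_ℚ`, and the multiplicity `m` of the eigenvalue `1` of the Frobenius on the
realisation of `N` is the order of the pole of the zeta function `ζ(X, s)` at `s = r`.

Theorem. If `CHMot(𝔽_q)` is abelian and rational and numerical equivalence do not agree on `X` in
codimension `r` then `dim CH^r(X)_ℚ < m`. As a consequence (second assertion), the two equivalences
agree whenever the rank of the group of cycles modulo numerical equivalence is at least `m - 1` (the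
strong Tate conjecture fails by at most one). The powers of the class of a hyperplane section are not
numerically trivial, so this is the case for each smooth projective `X` and `r` for which `ζ(X, s)`
has a pole of order at most two at `s = r`.
Nothing is assumed on the Tate conjecture or on the semisimplicity of the Frobenius. In other words:
a cycle of infinite order in the Chow group, numerically trivial, on a smooth projective `X` over
`𝔽_q`, in a codimension `r` where `ζ(X, s)` has a pole of order at most two, would show that
`CHMot(𝔽_q)` is not abelian.

Steps of the proof: let `m = dim Hom(𝟙, N)` (the rank bound says `≥`). The part of `N` on which the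
Frobenius is unipotent is a direct summand `N'` of `N` (Fitting's lemma; the spaces of endomorphisms
are finite dimensional by the rank bound) with `Hom(𝟙, N') = Hom(𝟙, N)` and multiplicity `m`.
Dividing `N'` by copies of `𝟙` which together with a given `f ≠ 0` span `Hom(𝟙, N')` we arrive at a
quotient of multiplicity one with unipotent Frobenius, which contains `𝟙` by `f`; the quotient of this
by `𝟙` has zero realisation, hence it is zero (there are no phantoms, by the rank bound). This gives
a morphism `N' ⟶ 𝟙` with non zero composite with `f`.
-/

set_option autoImplicit false

open CategoryTheory Limits MonoidalCategory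

namespace Pool.Agent.Results.MP_6c4da4_ag.LowPoleOrder

open Pool.Agent.Y112.SR Pool.Agent.Y112.KD Pool.Agent.R905.Ab

universe v u w

/-- The numerically trivial elements of `Hom(𝟙, N)` (for `N = h(X)(r)`: the cycles of codimension `r`
on `X` which are numerically equivalent to zero). -/
def numTrivial {C : Type u} [Category.{v} C] [Preadditive C] [Linear ℚ C] [MonoidalCategory C]
    (N : C) : Submodule ℚ (𝟙_ C ⟶ N) where
  carrier := {f | ∀ g : N ⟶ 𝟙_ C, f ≫ g = 0}
  add_mem' ha hb g := by rw [Preadditive.add_comp, ha g, hb g, add_zero]
  zero_mem' g := zero_comp
  smul_mem' c f hf g := by rw [Linear.smul_comp, hf g, smul_zero]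

theorem result {C : Type u} [Category.{v} C] [Abelian C] [Linear ℚ C] [MonoidalCategory C]
    [MonoidalPreadditive C] [MonoidalLinear ℚ C] [SymmetricCategory C] [RightRigidCategory C]
    (hU : UnitQ C) {K : Type w} [Field K] (R : SuperRealisation C K) (F : Frobenius R) (N : C) :
    (numTrivial N ≠ ⊥ → Module.finrank ℚ (𝟙_ C ⟶ N) <
      Module.finrank K (Module.End.maxGenEigenspace (R.H.map (F.app N)).hom 1)) ∧
    (Module.finrank K (Module.End.maxGenEigenspace (R.H.map (F.app N)).hom 1) ≤
      Module.finrank ℚ ((𝟙_ C ⟶ N) ⧸ numTrivial N) + 1 → numTrivial N = ⊥) := by
  have h1 : numTrivial N ≠ ⊥ → Module.finrank ℚ (𝟙_ C ⟶ N) <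
      Module.finrank K (Module.End.maxGenEigenspace (R.H.map (F.app N)).hom 1) := by
    intro h0
    by_contra hlt
    obtain ⟨f, hf, hf0⟩ := (Submodule.ne_bot_iff _).1 h0
    obtain ⟨g, hg⟩ := F.nontrivial_of_full hU N (not_lt.1 hlt) f hf0
    exact hg (hf g)
  refine ⟨h1, fun h2 => ?_⟩
  by_contra h0
  have hfin := (F.finrank_le hU N).1
  have h3 := h1 h0
  have h4 := (numTrivial N).finrank_quotient_add_finrank
  have h5 : 0 < Module.finrank ℚ (numTrivial N) :=
    Nat.pos_of_ne_zero fun h => h0 (Submodule.finrank_eq_zero.1 h)
  omega

end Pool.Agent.Results.MP_6c4da4_ag.LowPoleOrder
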