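import Pool.Agent.R905.Ab.Dual

/-!
# If the category of Chow motives over a finite field is abelian, the Chow groups are finite
dimensional, of rank at most the order of the pole of the zeta function

`C` is an abelian `ℚ`-linear rigid symmetric tensor category with `End(𝟙) = ℚ`, `R` is a symmetric
monoidal additive functor from `C` to finite dimensional super vector spaces over a field `K`, and
`F` is a Frobenius: a natural endomorphism of the identity functor, equal to the identity on `𝟙`,
such that `1` is not an eigenvalue of its realisation on the odd part of any object.

The example for the problem: `C = CHMot(𝔽_q)`, IF this category is abelian, `R = H^*` is the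
`ℓ`-adic cohomology and `F` is the geometric Frobenius. The hypotheses on `R` and `F` are then
theorems: correspondences over `𝔽_q` commute with the Frobenius, and the odd part of `H^*(M)(r)` has
odd weights, so that `1` is not an eigenvalue (Deligne). No exactness or faithfulness of the
cohomology is known or assumed for `C`, and neither are finite-dimensionality in the sense of Kimura,
the Tate conjecture or the semisimplicity of the Frobenius.

For a smooth projective variety `X` over `𝔽_q`, of pure dimension `d`, and `N = h(X)(r)` one has
`Hom(𝟙, N) = CH^r(X)_ℚ` and `Hom(N, 𝟙) = CH^{d-r}(X)_ℚ`, the composition is the intersection number,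
and the multiplicity of the eigenvalue `1` of the Frobenius on the realisation of `N` is the
multiplicity of the eigenvalue `q^r` on `H^{2r}(X)`, that is, the order `m` of the pole of the zeta
function `ζ(X, s)` at `s = r`. The theorem says: if `CHMot(𝔽_q)` is abelian then

* `CH^r(X)_ℚ` is finite dimensional;
* `dim CH^r(X)_ℚ + dim CH^{d-r}(X)_{ℚ, num} ≤ m`, where the second term is the space of numerically
  trivial cycle classes of codimension `d - r` (the third assertion is the same with `r` and `d - r`
  exchanged; by the functional equation `m` is the same for `d - r`).

So, if `CHMot(𝔽_q)` is abelian, the strong form of the Tate conjecture for `X` in codimension `r` (the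
rank of the group of cycles modulo numerical equivalence is `m`) implies that rational and numerical
equivalence agree on `X` in codimensions `r` and `d - r`. In other words: a smooth projective `X` over
`𝔽_q` which violates the inequality disproves the abelianness of `CHMot(𝔽_q)`.

Steps of the proof: (1) traces are additive in short exact sequences of an abelian rigid tensor
category (by pulling back the name of an endomorphism; nothing is assumed on `R`). (2) `𝟙` is a simple
object, so a non zero morphism `f : 𝟙 ⟶ N` is a monomorphism. (3) Comparison of the traces of all
powers of the Frobenius in `0 ⟶ 𝟙 ⟶ N ⟶ coker f ⟶ 0`: the multiplicity of the eigenvalue `1` (even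
part minus odd part) drops by one; by the weights the odd part does not contribute, so all these
multiplicities are `≥ 0`. (4) Induction: after dividing `N` by numerically trivial morphisms from `𝟙`,
all morphisms `N ⟶ 𝟙` are still defined.
-/

set_option autoImplicit false

open CategoryTheory Limits MonoidalCategory

namespace Pool.Agent.Results.MP_6c4da4_ag.RankBound

open Pool.Agent.Y112.SR Pool.Agent.Y112.KD Pool.Agent.R905.Ab

universe v u w

/-- The numerically trivial elements of `Hom(𝟙, N)`. -/
def numTrivial {C : Type u} [Category.{v} C] [Preadditive C] [Linear ℚ C] [MonoidalCategory C]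
    (N : C) : Submodule ℚ (𝟙_ C ⟶ N) where
  carrier := {f | ∀ g : N ⟶ 𝟙_ C, f ≫ g = 0}
  add_mem' ha hb g := by rw [Preadditive.add_comp, ha g, hb g, add_zero]
  zero_mem' g := zero_comp
  smul_mem' c f hf g := by rw [Linear.smul_comp, hf g, smul_zero]

/-- The numerically trivial elements of `Hom(N, 𝟙)`. -/
def numTrivialTo {C : Type u} [Category.{v} C] [Preadditive C] [Linear ℚ C] [MonoidalCategory C]
    (N : C) : Submodule ℚ (N ⟶ 𝟙_ C) where
  carrier := {g | ∀ f : 𝟙_ C ⟶ N, f ≫ g = 0}
  add_mem' ha hb g := by rw [Preadditive.comp_add, ha g, hb g, add_zero]
  zero_mem' g := comp_zero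
  smul_mem' c f hf g := by rw [Linear.comp_smul, hf g, smul_zero]

theorem result {C : Type u} [Category.{v} C] [Abelian C] [Linear ℚ C] [MonoidalCategory C]
    [MonoidalPreadditive C] [MonoidalLinear ℚ C] [SymmetricCategory C] [RightRigidCategory C]
    (hU : UnitQ C) {K : Type w} [Field K] (R : SuperRealisation C K) (F : Frobenius R) (N : C) :
    Module.Finite ℚ (𝟙_ C ⟶ N) ∧
    Module.finrank ℚ (𝟙_ C ⟶ N) + Module.finrank ℚ (numTrivialTo N) ≤
      Module.finrank K (Module.End.maxGenEigenspace (R.H.map (F.app N)).hom 1) ∧
    Module.finrank ℚ (N ⟶ 𝟙_ C) + Module.finrank ℚ (numTrivial N) ≤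
      Module.finrank K (Module.End.maxGenEigenspace (R.H.map (F.app N)).hom 1) := by
  refine ⟨(F.finrank_le hU N).1, ?_, ?_⟩
  · rw [add_comm]
    exact F.refined' hU _ N (numTrivialTo N) le_rfl fun g hg f => hg f
  · rw [add_comm]
    exact F.refined hU _ N (numTrivial N) le_rfl fun f hf g => hf g

end Pool.Agent.Results.MP_6c4da4_ag.RankBound
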